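import Pool.Agent.K7.H2.UT.Stm

set_option autoImplicit false

namespace Pool.Agent.K7.H2.UT

theorem noUT (inv : StINV) (obs : StOBS) (idx : StIDX)
    (F : Type) [Field F] [Fintype F] [DecidableEq F] (r : ℕ) (hr : 1 < r)
    (hd : r ∣ Fintype.card F - 1)
    (he : Even (Fintype.card F) ∨ Even ((Fintype.card F - 1) / r))
    (hs : ∃ x ∈ (powMonoidHom r : Fˣ →* Fˣ).range, ∃ y ∈ (powMonoidHom r : Fˣ →* Fˣ).range,
      ∃ z ∈ (powMonoidHom r : Fˣ →* Fˣ).range, (x : F) + y = z)
    (G : Subgroup (Equiv.Perm (OnePoint F))) (hG : G ≤ PGammaL F) : ¬ HasUT 4 G := by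
  obtain ⟨h1, h2, h3⟩ := idx F r hr hd he
  refine obs inv F _ ?_ h2 h3 hs G hG
  intro h
  rw [h, Subgroup.index_top] at h1
  omega

theorem partA (sum : StSUM) (inv : StINV) (obs : StOBS) (idx : StIDX)
    (F : Type) [Field F] [Fintype F] [DecidableEq F]
    (G : Subgroup (Equiv.Perm (OnePoint F))) (hG : G ≤ PGammaL F) (h : HasUT 4 G)
    (r : ℕ) (hr : 1 < r) (hd : r ∣ Fintype.card F - 1)
    (he : Even (Fintype.card F) ∨ Even ((Fintype.card F - 1) / r)) :
    Fintype.card F ≤ r ^ 4 := by
  by_contra hlt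
  push Not at hlt
  obtain ⟨h1, h2, h3⟩ := idx F r hr hd he
  refine noUT inv obs idx F r hr hd he ?_ G hG h
  exact sum F _ (by omega) (by rw [h1]; exact hlt)

theorem partB (sum : StSUM) (inv : StINV) (obs : StOBS) (idx : StIDX) (small : StSMALL)
    (p : ℕ) [hp : Fact p.Prime] (h11 : 11 ≤ p)
    (G : Subgroup (Equiv.Perm (OnePoint (ZMod p)))) (hG : G ≤ PGammaL (ZMod p)) (h : HasUT 4 G) :
    p % 12 = 11 := by
  have hc : Fintype.card (ZMod p) = p := ZMod.card p
  have hodd : p % 2 = 1 := by
    rcases hp.1.eq_two_or_odd with h | h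
    · omega
    · exact h
  have h3 : p % 3 ≠ 0 := by
    intro h0
    have := (Nat.prime_dvd_prime_iff_eq Nat.prime_three hp.1).1 (Nat.dvd_of_mod_eq_zero h0)
    omega
  by_contra hne
  -- the case `p = 1 mod 4`
  by_cases h4 : p % 4 = 1
  · have hd : 2 ∣ Fintype.card (ZMod p) - 1 := by rw [hc]; omega
    have he : Even (Fintype.card (ZMod p)) ∨ Even ((Fintype.card (ZMod p) - 1) / 2) := by
      right; rw [hc, Nat.even_iff]; omega
    have hA := partA sum inv obs idx (ZMod p) G hG h 2 (by norm_num) hd he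
    rw [hc] at hA
    have h13 : p = 13 := by
      have : p ≤ 16 := by simpa using hA
      omega
    subst h13
    exact noUT inv obs idx (ZMod 13) 2 (by norm_num) hd he (small 13 2 (by simp)) G hG h
  · have h7 : p % 12 = 7 := by omega
    have hd : 3 ∣ Fintype.card (ZMod p) - 1 := by rw [hc]; omega
    have he : Even (Fintype.card (ZMod p)) ∨ Even ((Fintype.card (ZMod p) - 1) / 3) := by
      right; rw [hc, Nat.even_iff]; omega
    have hA := partA sum inv obs idx (ZMod p) G hG h 3 (by norm_num) hd he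
    rw [hc] at hA
    have h81 : p ≤ 81 := by simpa using hA
    have hcases : p = 19 ∨ p = 31 ∨ p = 43 ∨ p = 55 ∨ p = 67 ∨ p = 79 := by omega
    rcases hcases with e | e | e | e | e | e
    · subst e
      exact noUT inv obs idx (ZMod 19) 3 (by norm_num) hd he (small 19 3 (by simp)) G hG h
    · subst e
      exact noUT inv obs idx (ZMod 31) 3 (by norm_num) hd he (small 31 3 (by simp)) G hG h
    · subst e
      exact noUT inv obs idx (ZMod 43) 3 (by norm_num) hd he (small 43 3 (by simp)) G hG h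
    · subst e
      exact absurd hp.1 (by norm_num)
    · subst e
      exact noUT inv obs idx (ZMod 67) 3 (by norm_num) hd he (small 67 3 (by simp)) G hG h
    · subst e
      exact noUT inv obs idx (ZMod 79) 3 (by norm_num) hd he (small 79 3 (by simp)) G hG h

end Pool.Agent.K7.H2.UT
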