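import Pool.Agent.K7.H2.UT.Final
import Pool.Agent.K7.H68.UT.SUM
import Pool.Agent.K7.H30.UT.IDX
import Pool.Agent.K7.H52.UT.INV
import Pool.Agent.K7.H88.UT.OBS
import Pool.Agent.K7.H79.UT.SMALL

set_option autoImplicit false

namespace Pool.Agent.K7.H2.UT

/-- the obstruction for every proper subgroup generated by `-1`, `u`, `v` with `u + v = 1` -/
theorem generate (F : Type) [Field F] [Fintype F] [DecidableEq F]
    (G : Subgroup (Equiv.Perm (OnePoint F))) (hG : G ≤ PGammaL F) (h : HasUT 4 G)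
    (u v : Fˣ) (huv : (u : F) + v = 1) : Subgroup.closure {-1, u, v} = ⊤ := by
  by_contra hne
  refine Pool.Agent.K7.H88.UT.stOBS Pool.Agent.K7.H52.UT.stINV F _ hne ?_ ?_ ?_ G hG h
  · exact Subgroup.subset_closure (by simp)
  · intro σ x hx
    obtain ⟨m, hm⟩ := MonoidHom.map_cyclic (Units.map (σ : F →* F))
    rw [hm]
    exact Subgroup.zpow_mem _ hx m
  · exact ⟨u, Subgroup.subset_closure (by simp), v, Subgroup.subset_closure (by simp), 1,
      Subgroup.one_mem _, by simpa using huv⟩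

theorem main :
    (∀ (F : Type) [Field F] [Fintype F] [DecidableEq F] (G : Subgroup (Equiv.Perm (OnePoint F))),
      G ≤ PGammaL F → HasUT 4 G →
        (∀ u v : Fˣ, (u : F) + v = 1 → Subgroup.closure {-1, u, v} = ⊤) ∧
        ∀ r : ℕ, 1 < r → r ∣ Fintype.card F - 1 →
          (Even (Fintype.card F) ∨ Even ((Fintype.card F - 1) / r)) → Fintype.card F ≤ r ^ 4) ∧
    (∀ (p : ℕ) [Fact p.Prime], 11 ≤ p → ∀ G : Subgroup (Equiv.Perm (OnePoint (ZMod p))),
      G ≤ PGammaL (ZMod p) → HasUT 4 G → p % 12 = 11) := by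
  refine ⟨?_, ?_⟩
  · intro F _ _ _ G hG h
    exact ⟨fun u v huv => generate F G hG h u v huv, fun r h1 h2 h3 =>
      partA Pool.Agent.K7.H68.UT.stSUM Pool.Agent.K7.H52.UT.stINV
        Pool.Agent.K7.H88.UT.stOBS Pool.Agent.K7.H30.UTIDX.stIDX F G hG h r h1 h2 h3⟩
  · intro p _ h11 G hG h
    exact partB Pool.Agent.K7.H68.UT.stSUM Pool.Agent.K7.H52.UT.stINV
      Pool.Agent.K7.H88.UT.stOBS Pool.Agent.K7.H30.UTIDX.stIDX Pool.Agent.K7.H79.UT.stSMALL
      p h11 G hG h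

end Pool.Agent.K7.H2.UT
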