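import Mathlib

/-!
# The 4-universal transversal property: definitions and the statements of the jobs
-/

set_option autoImplicit false

open OnePoint

namespace Pool.Agent.K7.H2.UT

/-- The `k`-universal transversal property of a permutation group `G`: for every `k`-subset `S` and
every `k`-partition of `Ω` (given by a surjective labelling `P : Ω → Fin k`, the blocks being its
fibres) some `g` in `G` maps `S` onto a section, that is, `P` is injective on the image of `S`. -/
def HasUT {Ω : Type} (k : ℕ) (G : Subgroup (Equiv.Perm Ω)) : Prop :=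
  ∀ S : Finset Ω, S.card = k → ∀ P : Ω → Fin k, Function.Surjective P →
    ∃ g ∈ G, Set.InjOn (fun s => P (g s)) (S : Set Ω)

/-- The group `PΓL(2,F)` of permutations of the projective line `F ∪ {∞}`: generated by the
fractional linear transformations and the field automorphisms. -/
def PGammaL (F : Type) [Field F] [DecidableEq F] : Subgroup (Equiv.Perm (OnePoint F)) :=
  Subgroup.closure ({g | ∃ M : GL (Fin 2) F, ∀ x, g x = M • x} ∪
    {g | ∃ σ : F ≃+* F, ∀ x, g x = OnePoint.map σ x})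

/-- the determinant of the two points, with `∞ = (1, 0)` and `x = (x, 1)` -/
def D {F : Type} [Field F] : OnePoint F → OnePoint F → F
  | ∞, ∞ => 0
  | ∞, OnePoint.some _ => 1
  | OnePoint.some _, ∞ => -1
  | OnePoint.some x, OnePoint.some y => x - y

/-- job SUM: a subgroup of small index of the multiplicative group contains `x, y, x + y` -/
def StSUM : Prop := ∀ (F : Type) [Field F] [Fintype F] (H : Subgroup Fˣ), 2 ≤ H.index →
  H.index ^ 4 < Fintype.card F → ∃ x ∈ H, ∃ y ∈ H, ∃ z ∈ H, (x : F) + y = z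

/-- job INV: the elements of `PΓL` preserve `D` up to a gauge and a field automorphism -/
def StINV : Prop := ∀ (F : Type) [Field F] [DecidableEq F], ∀ g ∈ PGammaL F,
  ∃ (σ : F ≃+* F) (δ : F) (c : OnePoint F → F), δ ≠ 0 ∧ (∀ a, c a ≠ 0) ∧
    ∀ a b, D (g a) (g b) = δ * c a * c b * σ (D a b)

/-- job OBS: the obstruction (uses INV as a hypothesis) -/
def StOBS : Prop := StINV → ∀ (F : Type) [Field F] [DecidableEq F] (H : Subgroup Fˣ), H ≠ ⊤ →
  (-1 : Fˣ) ∈ H → (∀ σ : F ≃+* F, ∀ x ∈ H, Units.map (σ : F →* F) x ∈ H) →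
  (∃ x ∈ H, ∃ y ∈ H, ∃ z ∈ H, (x : F) + y = z) →
  ∀ G : Subgroup (Equiv.Perm (OnePoint F)), G ≤ PGammaL F → ¬ HasUT 4 G

/-- job IDX: the subgroup of `r`-th powers -/
def StIDX : Prop := ∀ (F : Type) [Field F] [Fintype F] (r : ℕ), 1 < r → r ∣ Fintype.card F - 1 →
  Even (Fintype.card F) ∨ Even ((Fintype.card F - 1) / r) →
  (powMonoidHom r : Fˣ →* Fˣ).range.index = r ∧ (-1 : Fˣ) ∈ (powMonoidHom r : Fˣ →* Fˣ).range ∧
    ∀ σ : F ≃+* F, ∀ x ∈ (powMonoidHom r : Fˣ →* Fˣ).range,
      Units.map (σ : F →* F) x ∈ (powMonoidHom r : Fˣ →* Fˣ).range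

/-- job SMALL: squares for 13, cubes for 19, 31, 43, 67, 79 -/
def StSMALL : Prop := ∀ (p r : ℕ) [Fact p.Prime],
  (p, r) ∈ [(13, 2), (19, 3), (31, 3), (43, 3), (67, 3), (79, 3)] →
  ∃ x ∈ (powMonoidHom r : (ZMod p)ˣ →* (ZMod p)ˣ).range,
    ∃ y ∈ (powMonoidHom r : (ZMod p)ˣ →* (ZMod p)ˣ).range,
      ∃ z ∈ (powMonoidHom r : (ZMod p)ˣ →* (ZMod p)ˣ).range, (x : ZMod p) + y = z

end Pool.Agent.K7.H2.UT
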